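import Pool.Agent.Q278.F18.Exist

namespace Pool.Agent.Results.MP_f18a8d_nt.NotRegular

open Pool.Agent.Q278.F18

/-- `Q` restricted to the positive integers is the perturbed Hofstadter sequence:
`Q(1) = Q(2) = 1` and, for `n ≥ 3`, both arguments `n - Q(n-1)`, `n - Q(n-2)` lie in
`{1, ..., n-1}` and `Q(n) = Q(n - Q(n-1)) + Q(n - Q(n-2)) + (-1)^n`. -/
def IsPerturbedHofstadter (Q : ℤ → ℤ) : Prop :=
  Q 1 = 1 ∧ Q 2 = 1 ∧ ∀ n : ℤ, 3 ≤ n →
    (1 ≤ n - Q (n - 1) ∧ n - Q (n - 1) < n) ∧ (1 ≤ n - Q (n - 2) ∧ n - Q (n - 2) < n) ∧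
    Q n = Q (n - Q (n - 1)) + Q (n - Q (n - 2)) + (-1) ^ n.toNat

/-- The `k`-kernel of a sequence. -/
def kernel (k : ℕ) (t : ℕ → ℤ) : Set (ℕ → ℤ) :=
  {f | ∃ e c : ℕ, c < k ^ e ∧ f = fun n => t (k ^ e * n + c)}

/-- `t` is `k`-regular: the ℤ-module spanned by its `k`-kernel is finitely generated. -/
def IsRegular (k : ℕ) (t : ℕ → ℤ) : Prop := (Submodule.span ℤ (kernel k t)).FG

/-- `s` agrees with a `k`-regular sequence for all sufficiently large `n`. -/
def EventuallyRegular (k : ℕ) (s : ℕ → ℤ) : Prop :=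
  ∃ t : ℕ → ℤ, IsRegular k t ∧ ∃ N : ℕ, ∀ n ≥ N, s n = t n

/-- `q j = 2 (4^j - 1) / 3`. -/
def qq : ℕ → ℕ
  | 0 => 0
  | j + 1 => 4 * qq j + 2

theorem qq_aa (k j : ℕ) : 4 ^ (k + 2) * qq j + 4 * aa k = 4 * aa (k + j) := by
  induction j with
  | zero => simp [qq]
  | succ j ih =>
    have h1 : qq (j + 1) = 4 * qq j + 2 := rfl
    have h2 : aa (k + (j + 1)) = 4 * aa (k + j) - 1 := rfl
    have h3 := aa_closed k
    have h4 := aa_ge (k + j)
    have h5 : (4 : ℕ) ^ (k + 2) = 4 * 4 ^ (k + 1) := by ring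
    rw [h1, h2, h5]
    rw [h5] at ih
    have h6 : 4 * 4 ^ (k + 1) * (4 * qq j + 2) = 4 * (4 * 4 ^ (k + 1) * qq j) + 8 * 4 ^ (k + 1) := by ring
    rw [h6]
    omega

theorem sign_at {Q : ℤ → ℤ} (hQ : WRec Q) (r i : ℕ) (hi : i < 2 * aa r) :
    Int.sign (Q ((4 * aa r - 2 * r - 5 + 2 * i : ℕ) + 1) - Q ((4 * aa r - 2 * r - 5 + 2 * i : ℕ))) =
      if i = 0 then 0 else 1 := by
  obtain ⟨h, hG, hz, hall, hhalf⟩ := pData hQ r
  obtain ⟨b1, b2, b3⟩ := hall i (by omega)
  have har := aa_ge r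
  have e1 : ((4 * aa r - 2 * r - 5 + 2 * i : ℕ) : ℤ) = 2 * (2 * (aa r : ℤ) - r - 2 + i) - 1 := by omega
  rw [e1]
  have e2 : (2 * (2 * (aa r : ℤ) - r - 2 + i) - 1 + 1 : ℤ) = 2 * (2 * (aa r : ℤ) - r - 2 + i) := by ring
  rw [e2, b2, b3]
  split_ifs with h0
  · subst h0
    rw [hz]
    simp
  · have := hhalf i (by omega) hi
    apply Int.sign_eq_one_of_pos
    omega

theorem lin_indep_of_tri {n : ℕ} (v : Fin n → ℕ → ℤ) (p : Fin n → ℕ)
    (h0 : ∀ i j, i < j → v i (p j) = 0) (h1 : ∀ i, v i (p i) = 1) : LinearIndependent ℤ v := by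
  rw [Fintype.linearIndependent_iff]
  intro g hg
  by_contra hne
  push Not at hne
  obtain ⟨i0, hi0⟩ := hne
  have hS : (Finset.univ.filter (fun i => g i ≠ 0)).Nonempty := ⟨i0, by simp [hi0]⟩
  set S := Finset.univ.filter (fun i => g i ≠ 0) with hSdef
  set m := S.max' hS with hm
  have hmS : m ∈ S := Finset.max'_mem S hS
  have hgm : g m ≠ 0 := by
    have := (Finset.mem_filter.1 hmS).2
    exact this
  have heval := congrFun hg (p m)
  rw [Finset.sum_apply] at heval
  have : ∑ i, (g i • v i) (p m) = g m := by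
    rw [Finset.sum_eq_single m]
    · simp [h1]
    · intro i _ him
      rcases lt_or_gt_of_ne him with h | h
      · simp [h0 i m h]
      · have hi : g i = 0 := by
          by_contra hgi
          have : i ∈ S := Finset.mem_filter.2 ⟨Finset.mem_univ _, hgi⟩
          have := Finset.le_max' S i this
          exact absurd h (not_lt.2 this)
        simp [hi]
    · intro h; exact absurd (Finset.mem_univ _) h
  rw [this] at heval
  exact hgm (by simpa using heval)

theorem not_regular {Q : ℤ → ℤ} (hQ : WRec Q) :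
    ¬ EventuallyRegular 4 (fun n => Int.sign (Q ((n : ℤ) + 1) - Q n)) := by
  rintro ⟨t, ht, N, hN⟩
  obtain ⟨S, hS⟩ := ht
  set d := S.card with hd
  set k := N + d + 3 with hk
  have hak := aa_ge k
  let cc : ℕ → ℕ := fun i => 4 * aa k - 2 * k - 2 * i - 7
  let v : ℕ → ℕ → ℤ := fun i n => t (4 ^ (k + 2) * n + cc i)
  have hval : ∀ i j : ℕ, i ≤ d + 1 → i + 1 ≤ j → j ≤ d + 3 → v i (qq j) = if j = i + 1 then 0 else 1 := by
    intro i j hi hij hj
    have h1 := qq_aa k j
    have h2 := aa_ge (k + j)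
    have h3 : 4 ^ (k + 2) * qq j + cc i = 4 * aa (k + j) - 2 * (k + j) - 5 + 2 * (j - i - 1) := by
      simp only [cc]
      omega
    show t (4 ^ (k + 2) * qq j + cc i) = _
    rw [h3, ← hN _ (by omega)]
    have h4 := sign_at hQ (k + j) (j - i - 1) (by omega)
    simp only
    rw [h4]
    by_cases h5 : j = i + 1
    · rw [if_pos (by omega), if_pos h5]
    · rw [if_neg (by omega), if_neg h5]
  have hmem : ∀ i : ℕ, i ≤ d + 1 → v i ∈ Submodule.span ℤ (kernel 4 t) := by
    intro i hi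
    apply Submodule.subset_span
    refine ⟨k + 2, cc i, ?_, rfl⟩
    have h3 := aa_closed k
    have h5 : (4 : ℕ) ^ (k + 2) = 4 * 4 ^ (k + 1) := by ring
    have h6 : 0 < 4 ^ (k + 1) := by positivity
    simp only [cc]
    omega
  let w : Fin (d + 1) → ℕ → ℤ := fun i => v i - v (i + 1)
  have hind : LinearIndependent ℤ w := by
    apply lin_indep_of_tri w (fun i => qq (i + 2))
    · intro i j hij
      have hij' : (i : ℕ) < j := hij
      have hj := j.2
      show v i (qq (j + 2)) - v (i + 1) (qq (j + 2)) = 0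
      rw [hval i (j + 2) (by omega) (by omega) (by omega), hval (i + 1) (j + 2) (by omega) (by omega) (by omega),
        if_neg (by omega), if_neg (by omega)]
      ring
    · intro i
      have hi := i.2
      show v i (qq (i + 2)) - v (i + 1) (qq (i + 2)) = 1
      rw [hval i (i + 2) (by omega) (by omega) (by omega), hval (i + 1) (i + 2) (by omega) (by omega) (by omega),
        if_neg (by omega), if_pos (by omega)]
      ring
  have hsub : Set.range w ≤ Submodule.span ℤ (S : Set (ℕ → ℤ)) := by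
    rintro _ ⟨i, rfl⟩
    rw [hS]
    have hi := i.2
    exact Submodule.sub_mem _ (hmem i (by omega)) (hmem (i + 1) (by omega))
  have hcard := linearIndependent_le_span_aux' w hind (S : Set (ℕ → ℤ)) hsub
  simp only [Fintype.card_fin, Finset.coe_sort_coe, Fintype.card_coe] at hcard
  omega

/-- The perturbed Hofstadter sequence exists, and its sign pattern is not eventually `4`-regular. -/
theorem result :
    (∃ Q : ℤ → ℤ, IsPerturbedHofstadter Q) ∧
    ∀ Q : ℤ → ℤ, IsPerturbedHofstadter Q →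
      ¬ EventuallyRegular 4 (fun n => Int.sign (Q ((n : ℤ) + 1) - Q n)) := by
  refine ⟨⟨QQ, QQ_rec.one, QQ_rec.two, fun n hn => ?_⟩, fun Q hQ => ?_⟩
  · have b1 := bounds QQ_rec (n - 1) (by omega)
    have b2 := bounds QQ_rec (n - 2) (by omega)
    exact ⟨⟨by omega, by omega⟩, ⟨by omega, by omega⟩, QQ_rec.step n hn b1.1 b2.1⟩
  · exact not_regular ⟨hQ.1, hQ.2.1, fun n hn _ _ => (hQ.2.2 n hn).2.2⟩

end Pool.Agent.Results.MP_f18a8d_nt.NotRegular
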